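import Pool.Agent.Helper69.UG.Defs

/-!
# UV: Theorem V (sharp constant): definitions

One real parameter `δ`, `0 < δ ≤ 1/32`. `ww p = c log p / log T`; the primes of the resonator are those with
`δ < ww p ≤ 1/δ`, its coefficients `∏ v sin(π ww p)/(π ww p)`, `v² = (1 - 4δ) c`, its length `T^(1/2 - δ)`; the kernel
`qk 0 (X (t - γ))`, `X = log T / (δ² c)`, sees about `δ² c` zeros; a window has half length `HH = π c / log T`.
-/

set_option autoImplicit false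
open MeasureTheory Set Filter Topology
open Pool.Agent.Helper57.Zeta Pool.Agent.Helper57.LH Pool.Agent.Helper57.ED Pool.Agent.Helper54.LG
open Pool.Agent.Helper69.UG (pt)

namespace Pool.Agent.Helper69.UV

/-- Scale of the kernel. -/
noncomputable def XX (δ T c : ℝ) : ℝ := Real.log T / (δ ^ 2 * c)

/-- Half length of a window. -/
noncomputable def HH (T c : ℝ) : ℝ := Real.pi * c / Real.log T

/-- Admissible `c`. -/
def Adm (δ c0 T c : ℝ) : Prop := c0 ≤ c ∧ 64 * (c * Real.log (Real.log T)) ≤ δ ^ 2 * Real.log T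

/-- `c log p / log T`. -/
noncomputable def ww (T c : ℝ) (p : ℕ) : ℝ := c * Real.log p / Real.log T

/-- Primes of the resonator. -/
noncomputable def PR (δ T c : ℝ) : Finset ℕ :=
  (Finset.range (⌊T ^ (1 / (δ * c))⌋₊ + 1)).filter fun p => p.Prime ∧ T ^ (δ / c) < p

/-- `sin(π w)/(π w)`, `w = ww p`. -/
noncomputable def sn (T c : ℝ) (p : ℕ) : ℝ := Real.sin (Real.pi * ww T c p) / (Real.pi * ww T c p)

/-- Coefficient at a prime. -/
noncomputable def rp (T c v : ℝ) (p : ℕ) : ℝ := v * sn T c p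

open Classical in
/-- Coefficients of the resonator. -/
noncomputable def rr (δ T c v : ℝ) (n : ℕ) : ℝ :=
  if Squarefree n ∧ n.primeFactors ⊆ PR δ T c ∧ (n : ℝ) ≤ T ^ (1 / 2 - δ) then ∏ p ∈ n.primeFactors, rp T c v p else 0

/-- Length of the resonator. -/
noncomputable def NR (δ T : ℝ) : ℕ := ⌊T ^ (1 / 2 - δ)⌋₊

/-- The resonator. -/
noncomputable def RR (δ T c v t : ℝ) : ℂ :=
  ∑ n ∈ Finset.Icc 1 (NR δ T), (rr δ T c v n : ℂ) * (n : ℂ) ^ (-((1 / 2 : ℂ) + (t : ℂ) * Complex.I))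

/-- Its diagonal mean square. -/
noncomputable def VV (δ T c v : ℝ) : ℝ := ∑ n ∈ Finset.Icc 1 (NR δ T), rr δ T c v n ^ 2 / n

/-- Scale of the averages in `t`. -/
noncomputable def WW (δ T : ℝ) : ℝ := T ^ (1 - δ / 4096)

/-- The weight. -/
noncomputable def wt (δ T c v τ t : ℝ) : ℝ := PW (WW δ T) (t - τ) * ‖RR δ T c v t‖ ^ 2

open Classical in
/-- Mollifier, part coprime to the primes of the resonator. -/
noncomputable def ma (δ T c : ℝ) (d : ℕ) : ℝ :=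
  if ∀ p ∈ PR δ T c, ¬ p ∣ d then
    (ArithmeticFunction.moebius d : ℝ) * max 0 (min 1 (2 - 32 * Real.log d / (δ * Real.log T))) else 0

open Classical in
/-- Mollifier, part composed of the primes of the resonator. -/
noncomputable def mb (δ T c : ℝ) (d : ℕ) : ℝ :=
  if d.primeFactors ⊆ PR δ T c ∧ (d : ℝ) ≤ T ^ (δ / 32) then (ArithmeticFunction.moebius d : ℝ) else 0

/-- The mollifier. -/
noncomputable def mm (δ T c : ℝ) (n : ℕ) : ℝ := ∑ x ∈ n.divisorsAntidiagonal, ma δ T c x.1 * mb δ T c x.2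

/-- Length of the mollifier. -/
noncomputable def NM (δ T : ℝ) : ℕ := ⌊T ^ (3 * δ / 32)⌋₊

/-- `ζ M`. -/
noncomputable def FF (δ T c : ℝ) (s : ℂ) : ℂ := riemannZeta s * Mo (NM δ T) (mm δ T c) s

/-- `1 * m`. -/
noncomputable def gg (δ T c : ℝ) (n : ℕ) : ℝ := ∑ d ∈ n.divisors, mm δ T c d

/-- `∑_n r(n) r(pn)/n`. -/
noncomputable def WP (δ T c v : ℝ) (p : ℕ) : ℝ := ∑ n ∈ Finset.Icc 1 (NR δ T), rr δ T c v n * rr δ T c v (p * n) / n

/-- Circle mean of `‖F - 1‖`, centre `1/2 + 4·2^k y/log T + it`, radius `(4·2^k - 1/2) y/log T`. -/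
noncomputable def circ (δ T c y : ℝ) (k : ℕ) (t : ℝ) : ℝ :=
  (2 * Real.pi)⁻¹ * ∫ φ in (0:ℝ)..(2 * Real.pi),
    ‖FF δ T c (pt T (4 * 2 ^ k * y) t + (((4 * 2 ^ k - 1 / 2) * y / Real.log T : ℝ) : ℂ) * Complex.exp (φ * Complex.I)) - 1‖

/-- `‖F - 1‖` at the centre. -/
noncomputable def cen (δ T c y : ℝ) (k : ℕ) (t : ℝ) : ℝ := ‖FF δ T c (pt T (4 * 2 ^ k * y) t) - 1‖

/-- Majorant for the number of zeros in a cell (`K` the number of circles). -/
noncomputable def GY (δ T c y : ℝ) (K : ℕ) (t : ℝ) : ℝ :=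
  15 * (circ δ T c y 0 t + 2 * cen δ T c y 0 t) +
    ∑ k ∈ Finset.Ico 1 K, 15 * 2 ^ k * (circ δ T c y k t + 2 * cen δ T c y k t) * (2 * cen δ T c y (k - 1) t)

open Classical in
/-- Zeros at least `Y / log T` from the line, with the weight `exp (2 X |β - 1/2|) / (1 + X²(t-γ)²)`. -/
noncomputable def far (δ T c Y t : ℝ) : ℝ :=
  ∑' ρ : ZS, mx ρ * (if Real.log T * |(ρ : ℂ).re - 1 / 2| < Y then 0 else
    Real.exp (2 * za (XX δ T c) ρ) / (1 + zb (XX δ T c) t ρ ^ 2))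

open Classical in
/-- Zeros nearer to the line. -/
noncomputable def near (δ T c Y t : ℝ) : ℝ :=
  ∑' ρ : ZS, mx ρ * (if Real.log T * |(ρ : ℂ).re - 1 / 2| < Y then 1 / (1 + zb (XX δ T c) t ρ ^ 2) else 0)

/-- The prime sum averaged over a window. -/
noncomputable def WS (δ T c t : ℝ) : ℝ :=
  XX δ T c / (2 * Real.pi) * ∫ w in (-(HH T c))..(HH T c), SS (XX δ T c) (t + w)

/-- Measure statement, clusters. -/
def Mp : Prop := ∀ η : ℝ, 0 < η → ∃ A c₀ c₁ T₀ : ℝ, 0 < A ∧ 1 ≤ c₀ ∧ 0 < c₁ ∧ ∀ T : ℝ, T₀ ≤ T → ∀ c : ℝ, c₀ ≤ c →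
  c ≤ c₁ * (Real.log T / Real.log (Real.log T)) →
    ENNReal.ofReal (Real.exp (-(A * c)) * T) ≤
      volume {t : ℝ | T ≤ t ∧ t ≤ 2 * T ∧
        c + (1 - η) * √c ≤ (Pool.Agent.Helper93.UG.zc (Ico t (t + c * Pool.Agent.Helper93.UG.sp T)) : ℝ)}

/-- Measure statement, long gaps; there is an ordinate in `[t - B c sp T, t)`. -/
def Mm : Prop := ∀ η : ℝ, 0 < η → ∃ A B c₀ c₁ T₀ : ℝ, 0 < A ∧ 0 < B ∧ 1 ≤ c₀ ∧ 0 < c₁ ∧ ∀ T : ℝ, T₀ ≤ T → ∀ c : ℝ, c₀ ≤ c →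
  c ≤ c₁ * (Real.log T / Real.log (Real.log T)) →
    ENNReal.ofReal (Real.exp (-(A * c)) * T) ≤
      volume {t : ℝ | T ≤ t ∧ t ≤ 2 * T ∧
        (Pool.Agent.Helper93.UG.zc (Ico t (t + c * Pool.Agent.Helper93.UG.sp T)) : ℝ) ≤ c - (1 - η) * √c ∧
        ∃ g : ℝ, Pool.Agent.Helper93.UG.IsOrd g ∧ t - B * c * Pool.Agent.Helper93.UG.sp T ≤ g ∧ g < t}

end Pool.Agent.Helper69.UV
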