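import Pool.Agent.Helper69.UV.Defs
import Pool.Agent.Helper69.UG.NxDev

/-!
# UV-K6: the smooth count is close to `δ² c` minus the prime sum, in the weighted mean
-/

set_option autoImplicit false
open MeasureTheory Set Filter Topology
open Pool.Agent.Helper57.Zeta Pool.Agent.Helper57.LH Pool.Agent.Helper57.ED Pool.Agent.Helper54.LG
open Pool.Agent.Helper93.UG (zc IsOrd sp)
open Pool.Agent.Helper69.UG (pt NX SS_cont SS_bdd NX_meas MM_meas)

namespace Pool.Agent.Helper69.UV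

variable {δ : ℝ}

/-- `wt` times a bounded continuous function. -/
theorem int_wt_mul {T c v τ : ℝ} (h : Integrable (wt δ T c v τ)) {f : ℝ → ℝ} (hf : Measurable f) {B : ℝ}
    (hB : ∀ t, |f t| ≤ B) : Integrable fun t => wt δ T c v τ t * f t :=
  h.mul_bdd (c := B) hf.aestronglyMeasurable (Eventually.of_forall fun t => by rw [Real.norm_eq_abs]; exact hB t)

theorem wt_nonneg {T : ℝ} (hT : 0 < T) (c v τ t : ℝ) : 0 ≤ wt δ T c v τ t := by
  unfold wt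
  have : 0 < WW δ T := by unfold WW; positivity
  exact mul_nonneg (PW_pos this _).le (sq_nonneg _)

/-- Z8, statement -/
def FarMean (δ : ℝ) : Prop := ∃ C1 c0 T0 : ℝ, 1 ≤ C1 ∧ ∀ T, T0 ≤ T → ∀ c, Adm δ c0 T c → ∀ v : ℝ, v ^ 2 = (1 - 4 * δ) * c →
    ∀ τ u : ℝ, |τ| ≤ 2 * T → |u| ≤ T / 4 →
    Integrable (fun t => wt δ T c v τ t * far δ T c (C1 * √c) (t + u)) ∧
    ∫ t, wt δ T c v τ t * far δ T c (C1 * √c) (t + u) ≤ VV δ T c v

/-- K5, statement -/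
def MeanMM (δ : ℝ) : Prop := ∃ C c0 T0 : ℝ, 0 < C ∧ ∀ T, T0 ≤ T → ∀ c, Adm δ c0 T c → ∀ v : ℝ, v ^ 2 = (1 - 4 * δ) * c →
    ∀ τ u e : ℝ, T ≤ τ → τ ≤ 2 * T → |u| ≤ √T → e = 1 ∨ e = 2 →
    Integrable (fun t => wt δ T c v τ t * |MM (XX δ T c / e) (t + u) - e * (δ ^ 2 * c)|) ∧
    ∫ t, wt δ T c v τ t * |MM (XX δ T c / e) (t + u) - e * (δ ^ 2 * c)| ≤ C * VV δ T c v

/-- R11, statement -/
def VarSS (δ : ℝ) : Prop := ∃ C c0 T0 : ℝ, 0 < C ∧ ∀ T, T0 ≤ T → ∀ c, Adm δ c0 T c → ∀ v : ℝ, v ^ 2 = (1 - 4 * δ) * c →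
    ∀ τ u e : ℝ, e = 1 ∨ e = 2 → ∫ t, wt δ T c v τ t * SS (XX δ T c / e) (t + u) ^ 2 ≤ C * c * VV δ T c v

/-- K3, statement -/
def LossPt : Prop := ∃ C : ℝ, 0 < C ∧ ∀ δ T c Y t e : ℝ, 0 < δ → δ ≤ 1 / 32 → 3 ≤ T → 0 < c → 0 < Y → Y ≤ δ ^ 2 * c →
    e = 1 ∨ e = 2 →
    |NX (XX δ T c / e) t - (MM (XX δ T c / e) t - SS (XX δ T c / e) t)| ≤
      C * ((Y / (δ ^ 2 * c)) ^ 2 * near δ T c Y t + far δ T c Y t)

/-- K4, statement -/
def NearPt : Prop := ∃ C c2 : ℝ, 0 < C ∧ 0 < c2 ∧ ∀ δ T c Y t : ℝ, 0 < δ → δ ≤ 1 / 32 → 3 ≤ T → 0 < c → 0 < Y →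
    Y ≤ c2 * (δ ^ 2 * c) →
    near δ T c Y t ≤ C * (MM (XX δ T c) t - SS (XX δ T c) t + far δ T c Y t)

/-- R8, statement -/
def Mass (δ : ℝ) : Prop := ∃ c0 T0 : ℝ, ∀ T, T0 ≤ T → ∀ c, Adm δ c0 T c → ∀ v : ℝ, v ^ 2 = (1 - 4 * δ) * c → ∀ τ : ℝ,
    Integrable (wt δ T c v τ) ∧ |(∫ t, wt δ T c v τ t) - VV δ T c v| ≤ VV δ T c v / T

/-- R2, statement -/
def RrBd (δ : ℝ) : Prop := ∃ c0 T0 : ℝ, ∀ T, T0 ≤ T → ∀ c, Adm δ c0 T c → ∀ v : ℝ, v ^ 2 = (1 - 4 * δ) * c → ∀ n,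
    |rr δ T c v n| ≤ T ^ (δ / 64) ∧ 1 ≤ VV δ T c v

/-- K6 -/
theorem nx_dev_of (hδ : 0 < δ) (hδ1 : δ ≤ 1 / 32) (far_mean : FarMean δ) (mMM : MeanMM δ) (vSS : VarSS δ)
    (loss_pt : LossPt) (near_pt : NearPt) (wmass : Mass δ) (rr_bd : RrBd δ) : ∃ C c0 T0 : ℝ, 0 < C ∧ ∀ T, T0 ≤ T → ∀ c, Adm δ c0 T c → ∀ v : ℝ, v ^ 2 = (1 - 4 * δ) * c →
    ∀ τ u e : ℝ, T ≤ τ → τ ≤ 2 * T → |u| ≤ √T → e = 1 ∨ e = 2 →
    Integrable (fun t => wt δ T c v τ t * |NX (XX δ T c / e) (t + u) - e * (δ ^ 2 * c) + SS (XX δ T c / e) (t + u)|) ∧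
    ∫ t, wt δ T c v τ t * |NX (XX δ T c / e) (t + u) - e * (δ ^ 2 * c) + SS (XX δ T c / e) (t + u)| ≤ C * VV δ T c v := by
  obtain ⟨C1, c1, T1, hC1, hfar⟩ := far_mean
  obtain ⟨C2, c2, T2, hC2, hMM⟩ := mMM
  obtain ⟨C3, hC3, hloss⟩ := loss_pt
  obtain ⟨C4, k2, hC4, hk2, hnear⟩ := near_pt
  obtain ⟨C5, c5, T5, hC5, hSS⟩ := vSS
  obtain ⟨c6, T6, hmass⟩ := wmass
  obtain ⟨c7, T7, hrr⟩ := rr_bd
  refine ⟨C2 + C3 * (C1 ^ 2 / δ ^ 4 * C4 * (C2 + 2 + (C5 + 2) + 1)) + C3, max (max (max c1 c2) (max c5 c6)) (max (max c7 1)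
    (max ((C1 / δ ^ 2) ^ 2) ((C1 / (k2 * δ ^ 2)) ^ 2))), max (max (max T1 T2) (max T5 T6)) (max T7 16), by positivity, ?_⟩
  intro T hT c hc v hv τ u e hτ1 hτ2 hu he
  simp only [max_le_iff] at hT
  obtain ⟨⟨⟨hT1, hT2⟩, hT5, hT6⟩, hT7, hT16⟩ := hT
  have hcc := hc.1
  simp only [max_le_iff] at hcc
  obtain ⟨⟨⟨hc1, hc2⟩, hc5, hc6⟩, ⟨hc7, hc01⟩, hcC1, hck2⟩ := hcc
  have hA1 : Adm δ c1 T c := ⟨hc1, hc.2⟩
  have hA2 : Adm δ c2 T c := ⟨hc2, hc.2⟩
  have hA5 : Adm δ c5 T c := ⟨hc5, hc.2⟩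
  have hA6 : Adm δ c6 T c := ⟨hc6, hc.2⟩
  have hA7 : Adm δ c7 T c := ⟨hc7, hc.2⟩
  have hT0 : 0 < T := by linarith
  have hc0 : 0 < c := by linarith
  have hlog : 0 < Real.log T := Real.log_pos (by linarith)
  have hX : 0 < XX δ T c := div_pos hlog (by positivity)
  have hk0 : 0 < δ ^ 2 * c := by positivity
  have hkc : δ ^ 2 * c ≤ c := by
    refine mul_le_of_le_one_left hc0.le ?_
    nlinarith
  have he0 : 0 < e := by rcases he with rfl | rfl <;> norm_num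
  have hXe : 0 < XX δ T c / e := div_pos hX he0
  have hV1 : 1 ≤ VV δ T c v := (hrr T hT7 c hA7 v hv 0).2
  have hV : 0 < VV δ T c v := by linarith
  have hτ : |τ| ≤ 2 * T := by rw [abs_le]; constructor <;> linarith
  have hsq : √T ≤ T / 4 := by
    have h4 : (4:ℝ) ≤ √T := by
      rw [show (4:ℝ) = √16 by rw [show (16:ℝ) = 4 ^ 2 by norm_num, Real.sqrt_sq (by norm_num)]]
      exact Real.sqrt_le_sqrt hT16
    nlinarith [Real.mul_self_sqrt hT0.le]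
  have hu4 : |u| ≤ T / 4 := hu.trans hsq
  obtain ⟨hfi, hfb⟩ := hfar T hT1 c hA1 v hv τ u hτ hu4
  obtain ⟨hMei, hMeb⟩ := hMM T hT2 c hA2 v hv τ u e hτ1 hτ2 hu he
  obtain ⟨hM1i, hM1b⟩ := hMM T hT2 c hA2 v hv τ u 1 hτ1 hτ2 hu (Or.inl rfl)
  have hS := hSS T hT5 c hA5 v hv τ u 1 (Or.inl rfl)
  obtain ⟨hwi, hwb⟩ := hmass T hT6 c hA6 v hv τ
  rw [div_one] at hM1i hM1b hS
  rw [one_mul] at hM1i hM1b
  set Y := C1 * √c with hY
  have hsc : 0 < √c := Real.sqrt_pos.mpr hc0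
  have hY0 : 0 < Y := by positivity
  have hYc : Y ≤ δ ^ 2 * c := by
    have h1 : C1 / δ ^ 2 ≤ √c := by
      rw [show C1 / δ ^ 2 = √((C1 / δ ^ 2) ^ 2) by rw [Real.sqrt_sq (by positivity)]]
      exact Real.sqrt_le_sqrt hcC1
    have h2 : C1 ≤ √c * δ ^ 2 := by rwa [div_le_iff₀ (by positivity)] at h1
    calc Y ≤ (√c * δ ^ 2) * √c := by rw [hY]; gcongr
      _ = δ ^ 2 * (√c * √c) := by ring
      _ = δ ^ 2 * c := by rw [Real.mul_self_sqrt hc0.le]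
  have hYk : Y ≤ k2 * (δ ^ 2 * c) := by
    have h1 : C1 / (k2 * δ ^ 2) ≤ √c := by
      rw [show C1 / (k2 * δ ^ 2) = √((C1 / (k2 * δ ^ 2)) ^ 2) by rw [Real.sqrt_sq (by positivity)]]
      exact Real.sqrt_le_sqrt hck2
    have h2 : C1 ≤ √c * (k2 * δ ^ 2) := by rwa [div_le_iff₀ (by positivity)] at h1
    calc Y ≤ (√c * (k2 * δ ^ 2)) * √c := by rw [hY]; gcongr
      _ = k2 * (δ ^ 2 * (√c * √c)) := by ring
      _ = k2 * (δ ^ 2 * c) := by rw [Real.mul_self_sqrt hc0.le]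
  set E := C1 ^ 2 / δ ^ 4 with hE
  have hE0 : 0 ≤ E := by positivity
  have hYc2 : (Y / (δ ^ 2 * c)) ^ 2 = E / c := by
    rw [hY, div_pow, mul_pow, Real.sq_sqrt hc0.le, hE]
    field_simp
  set k : ℝ := δ ^ 2 * c with hk
  -- the pointwise bound
  set D := C3 * (E * C4) with hD
  have hD0 : 0 ≤ D := by positivity
  set g : ℝ → ℝ := fun t => |MM (XX δ T c / e) (t + u) - e * (δ ^ 2 * c)| +
    (D * (|MM (XX δ T c) (t + u) - k| + 2 + SS (XX δ T c) (t + u) ^ 2 / c + far δ T c Y (t + u)) +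
      C3 * far δ T c Y (t + u)) with hg
  have hfar0 : ∀ t, 0 ≤ far δ T c Y t := by
    intro t
    unfold far
    refine tsum_nonneg fun ρ => mul_nonneg (mx_nonneg _) ?_
    split_ifs
    · exact le_rfl
    · positivity
  have hpt : ∀ t, |NX (XX δ T c / e) (t + u) - e * (δ ^ 2 * c) + SS (XX δ T c / e) (t + u)| ≤ g t := by
    intro t
    have h1 := hloss δ T c Y (t + u) e hδ hδ1 (by linarith) hc0 hY0 hYc he
    have h2 := hnear δ T c Y (t + u) hδ hδ1 (by linarith) hc0 hY0 hYk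
    rw [hYc2] at h1
    set M := MM (XX δ T c) (t + u)
    set S := SS (XX δ T c) (t + u)
    set F := far δ T c Y (t + u) with hF
    have hF0 : 0 ≤ F := hfar0 _
    have h3 : |S| ≤ S ^ 2 / c + c := by
      have h4 : |S| * c ≤ S ^ 2 + c ^ 2 := by
        rw [← sq_abs S]
        nlinarith [sq_nonneg (|S| - c), abs_nonneg S]
      rw [← sub_nonneg]
      have : S ^ 2 / c + c - |S| = (S ^ 2 + c ^ 2 - |S| * c) / c := by field_simp
      rw [this]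
      exact div_nonneg (by linarith) hc0.le
    have h5 : near δ T c Y (t + u) ≤ C4 * (|M - k| + 2 * c + S ^ 2 / c + F) := by
      refine h2.trans (mul_le_mul_of_nonneg_left ?_ hC4.le)
      have := le_abs_self (M - k)
      have := neg_abs_le S
      linarith
    have h6 : E / c * near δ T c Y (t + u) ≤ E * C4 * (|M - k| + 2 + S ^ 2 / c + F) := by
      calc E / c * near δ T c Y (t + u) ≤ E / c * (C4 * (|M - k| + 2 * c + S ^ 2 / c + F)) := by gcongr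
        _ = E * C4 * ((|M - k| + 2 * c + S ^ 2 / c + F) / c) := by ring
        _ ≤ E * C4 * (|M - k| + 2 + S ^ 2 / c + F) := by
            gcongr
            rw [div_le_iff₀ hc0]
            have e1 : (|M - k| + 2 + S ^ 2 / c + F) * c = |M - k| * c + 2 * c + S ^ 2 / c * c + F * c := by ring
            rw [e1]
            have a1 : |M - k| ≤ |M - k| * c := le_mul_of_one_le_right (abs_nonneg _) hc01
            have a2 : S ^ 2 / c ≤ S ^ 2 / c * c := le_mul_of_one_le_right (by positivity) hc01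
            have a3 : F ≤ F * c := le_mul_of_one_le_right hF0 hc01
            linarith
    have h7 : |NX (XX δ T c / e) (t + u) - e * (δ ^ 2 * c) + SS (XX δ T c / e) (t + u)| ≤
        |NX (XX δ T c / e) (t + u) - (MM (XX δ T c / e) (t + u) - SS (XX δ T c / e) (t + u))| +
          |MM (XX δ T c / e) (t + u) - e * (δ ^ 2 * c)| := by
      refine le_trans (le_of_eq ?_) (abs_add_le _ _)
      congr 1
      ring
    have h8 : C3 * (E / c * near δ T c Y (t + u) + F) ≤ D * (|M - k| + 2 + S ^ 2 / c + F) + C3 * F := by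
      have := mul_le_mul_of_nonneg_left h6 hC3.le
      rw [hD]
      nlinarith
    simp only [hg]
    linarith
  have hMe : Measurable fun t => NX (XX δ T c / e) (t + u) - e * (δ ^ 2 * c) + SS (XX δ T c / e) (t + u) :=
    (((NX_meas _ hXe).comp (measurable_id.add_const u)).sub_const _).add
      ((SS_cont _).measurable.comp (measurable_id.add_const u))
  obtain ⟨B, hB⟩ := SS_bdd (XX δ T c)
  have hSi : Integrable fun t => wt δ T c v τ t * SS (XX δ T c) (t + u) ^ 2 := by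
    refine int_wt_mul hwi (((SS_cont _).measurable.comp (measurable_id.add_const u)).pow_const 2) (B := B ^ 2) fun t => ?_
    rw [abs_pow]
    have := hB (t + u)
    gcongr
  set f1 : ℝ → ℝ := fun t => wt δ T c v τ t * |MM (XX δ T c / e) (t + u) - e * (δ ^ 2 * c)| with hf1
  set f2 : ℝ → ℝ := fun t => wt δ T c v τ t * |MM (XX δ T c) (t + u) - k| with hf2
  set f3 : ℝ → ℝ := fun t => wt δ T c v τ t * SS (XX δ T c) (t + u) ^ 2 with hf3
  set f4 : ℝ → ℝ := fun t => wt δ T c v τ t * far δ T c Y (t + u) with hf4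
  have i2 : Integrable fun t => f2 t + 2 * wt δ T c v τ t := hM1i.add (hwi.const_mul 2)
  have i3 : Integrable fun t => f2 t + 2 * wt δ T c v τ t + c⁻¹ * f3 t := i2.add (hSi.const_mul _)
  have i4 : Integrable fun t => f2 t + 2 * wt δ T c v τ t + c⁻¹ * f3 t + f4 t := i3.add hfi
  have i5 : Integrable fun t => D * (f2 t + 2 * wt δ T c v τ t + c⁻¹ * f3 t + f4 t) := i4.const_mul D
  have i6 : Integrable fun t => D * (f2 t + 2 * wt δ T c v τ t + c⁻¹ * f3 t + f4 t) + C3 * f4 t :=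
    i5.add (hfi.const_mul C3)
  have i7 : Integrable fun t => f1 t + (D * (f2 t + 2 * wt δ T c v τ t + c⁻¹ * f3 t + f4 t) + C3 * f4 t) := hMei.add i6
  have heq : (fun t => wt δ T c v τ t * g t) =
      fun t => f1 t + (D * (f2 t + 2 * wt δ T c v τ t + c⁻¹ * f3 t + f4 t) + C3 * f4 t) := by
    funext t
    simp only [hg, hf1, hf2, hf3, hf4]
    ring
  have hgi : Integrable fun t => wt δ T c v τ t * g t := by rw [heq]; exact i7
  have hw0 : ∀ t, 0 ≤ wt δ T c v τ t := fun t => wt_nonneg hT0 c v τ t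
  have hwm : AEStronglyMeasurable (wt δ T c v τ) volume := hwi.aestronglyMeasurable
  have hres : Integrable fun t => wt δ T c v τ t * |NX (XX δ T c / e) (t + u) - e * (δ ^ 2 * c) + SS (XX δ T c / e) (t + u)| := by
    refine hgi.mono' (hwm.mul (by simpa only [Real.norm_eq_abs] using hMe.norm.aestronglyMeasurable)) (Eventually.of_forall fun t => ?_)
    rw [Real.norm_eq_abs, abs_mul, abs_of_nonneg (hw0 t), abs_abs]
    exact mul_le_mul_of_nonneg_left (hpt t) (hw0 t)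
  refine ⟨hres, ?_⟩
  have h1 : ∫ t, wt δ T c v τ t * |NX (XX δ T c / e) (t + u) - e * (δ ^ 2 * c) + SS (XX δ T c / e) (t + u)| ≤
      ∫ t, wt δ T c v τ t * g t :=
    integral_mono hres hgi fun t => mul_le_mul_of_nonneg_left (hpt t) (hw0 t)
  have h2 : ∫ t, wt δ T c v τ t * g t = (∫ t, f1 t) +
      (D * ((∫ t, f2 t) + 2 * (∫ t, wt δ T c v τ t) + c⁻¹ * (∫ t, f3 t) + ∫ t, f4 t) + C3 * ∫ t, f4 t) := by
    rw [heq, integral_add hMei i6, integral_add i5 (hfi.const_mul C3), integral_const_mul, integral_const_mul,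
      integral_add i3 hfi, integral_add i2 (hSi.const_mul _), integral_add hM1i (hwi.const_mul 2), integral_const_mul,
      integral_const_mul]
  have h3 : ∫ t, wt δ T c v τ t ≤ 2 * VV δ T c v := by
    have := (abs_le.mp hwb).2
    have h4 : VV δ T c v / T ≤ VV δ T c v := div_le_self hV.le (by linarith)
    linarith
  have h4 : c⁻¹ * (∫ t, f3 t) ≤ C5 * VV δ T c v := by
    rw [inv_mul_le_iff₀ hc0]
    linarith
  have h5 : D * ((∫ t, f2 t) + 2 * (∫ t, wt δ T c v τ t) + c⁻¹ * (∫ t, f3 t) + ∫ t, f4 t) ≤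
      D * ((C2 + 2 + (C5 + 2) + 1) * VV δ T c v) := by
    gcongr
    linarith
  have h6 : C3 * ∫ t, f4 t ≤ C3 * VV δ T c v := by gcongr
  calc _ ≤ ∫ t, wt δ T c v τ t * g t := h1
    _ ≤ C2 * VV δ T c v + (D * ((C2 + 2 + (C5 + 2) + 1) * VV δ T c v) + C3 * VV δ T c v) := by
        rw [h2]
        linarith
    _ = _ := by rw [hD]; ring

end Pool.Agent.Helper69.UV
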